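import Pool.Agent.MHP.Stmts

/-!
# Squad MHP (MP_09e7c7_co), row CON: the gadget is connected (helper14)
-/

set_option autoImplicit false

namespace Pool.Agent.MHP.H14

open Pool.Agent.HMT

theorem reach_of_rl {J : Type} [Finite J] (T B : ℕ) (GG : Set (Equiv.Perm J)) {U : Type}
    (ρ : J → U) (H : SimpleGraph U) {a b : Ver T B GG U} (h : Rl T B GG ρ H a b) :
    (Gr T B GG ρ H).Reachable a b := by
  by_cases hab : a = b
  · rw [hab]
  · apply SimpleGraph.Adj.reachable
    unfold Gr
    rw [SimpleGraph.fromRel_adj]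
    exact ⟨hab, Or.inl h⟩

theorem con : ConStmt := by
  intro J _ _ T B GG U ρ H hU
  have hrl : ∀ {a b : Ver T B GG U}, Rl T B GG ρ H a b → (Gr T B GG ρ H).Reachable a b :=
    fun h => reach_of_rl T B GG ρ H h
  -- vertices of the pieces
  have hpc : ∀ {u u' : U}, H.Reachable u u' →
      (Gr T B GG ρ H).Reachable (Sum.inr u) (Sum.inr u') := by
    intro u u' h
    obtain ⟨p⟩ := h
    induction p with
    | nil => exact SimpleGraph.Reachable.refl _
    | cons hadj _ ih => exact (hrl (Rl.pc _ _ hadj)).trans ih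
  have hroot : ∀ j : J, (Gr T B GG ρ H).Reachable (oo T B GG U) (Sum.inr (ρ j)) :=
    fun j => hrl (Rl.oh j)
  have hinr : ∀ u : U, (Gr T B GG ρ H).Reachable (oo T B GG U) (Sum.inr u) := by
    intro u
    obtain ⟨i, hi⟩ := hU u
    exact (hroot i).trans (hpc hi)
  -- the legs, from the centre
  have hleg : ∀ (g : GG) (i : J) (n : ℕ) (hn : n < T + 1),
      (Gr T B GG ρ H).Reachable (Sum.inl ⟨some (g, none), none⟩)
        (Sum.inl ⟨some (g, some (i, ⟨n, hn⟩)), none⟩) := by
    intro g i n
    induction n with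
    | zero =>
      intro hn
      exact hrl (Rl.spi g _ _ (SpAdj.c i))
    | succ m ih =>
      intro hn
      have h1 := ih (by omega)
      have h2 : Rl T B GG ρ H (Sum.inl ⟨some (g, some (i, (⟨m, by omega⟩ : Fin T).castSucc)), none⟩)
          (Sum.inl ⟨some (g, some (i, (⟨m, by omega⟩ : Fin T).succ)), none⟩) :=
        Rl.spi g _ _ (SpAdj.s i ⟨m, by omega⟩)
      exact h1.trans (hrl h2)
  have hcen : ∀ g : GG, (Gr T B GG ρ H).Reachable (oo T B GG U)
      (Sum.inl ⟨some (g, none), none⟩) := by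
    intro g
    obtain ⟨i⟩ := (inferInstance : Nonempty J)
    have h1 := hinr (ρ (g.1 i))
    have h2 := hrl (Rl.leg (T := T) (B := B) (ρ := ρ) (H := H) g i)
    have h3 := hleg g i T (by omega)
    exact (h1.trans h2.symm).trans h3.symm
  have hcore : ∀ c : CX T GG, (Gr T B GG ρ H).Reachable (oo T B GG U)
      (Sum.inl ⟨c, none⟩) := by
    intro c
    rcases c with _ | ⟨g, k⟩
    · exact SimpleGraph.Reachable.refl _
    · rcases k with _ | ⟨i, ⟨n, hn⟩⟩
      · exact hcen g
      · exact (hcen g).trans (hleg g i n hn)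
  have hall : ∀ v : Ver T B GG U, (Gr T B GG ρ H).Reachable (oo T B GG U) v := by
    intro v
    rcases v with ⟨c, t⟩ | u
    · rcases t with _ | t
      · exact hcore c
      · exact (hcore c).trans (hrl (Rl.leaf c t))
    · exact hinr u
  have : Nonempty (Ver T B GG U) := ⟨oo T B GG U⟩
  exact ⟨fun v w => (hall v).symm.trans (hall w)⟩

end Pool.Agent.MHP.H14
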